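import Pool.Agent.Lib_helper45.REll.Defs2
import Pool.Agent.Lib_helper55.REll_RT1
import Pool.Agent.Lib_helper97.REll_KF

open scoped BigOperators ComplexConjugate
open Polynomial

namespace Pool.Agent.REll
namespace INTL

/-! ### extension of multiplicative characters -/
theorem exists_charExt {K L : Type} [Field K] [Finite K] [Field L] [Finite L] [Algebra K L]
    (θ : MulChar K ℂ) :
    ∃ θ' : Lˣ →* ℂˣ, ∀ x : Kˣ, (θ' (Units.map (algebraMap K L : K →* L) x) : ℂ) = θ x := by
  let φ : Kˣ →* Lˣ := Units.map (algebraMap K L : K →* L)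
  have hinj : Function.Injective φ := Units.map_injective (algebraMap K L).injective
  let e : Kˣ ≃* φ.range := MonoidHom.ofInjective hinj
  let χ : φ.range →* ℂˣ := (MulChar.toUnitHom θ).comp e.symm.toMonoidHom
  haveI : NeZero (Monoid.exponent Lˣ) := ⟨Monoid.exponent_ne_zero_of_finite⟩
  obtain ⟨θ', hθ'⟩ := MonoidHom.domRestrict_surjective (M := ℂ) φ.range χ
  refine ⟨θ', fun x => ?_⟩
  have h1 : θ' (φ x) = χ (e x) := by
    rw [← hθ']
    rfl
  have h2 : χ (e x) = MulChar.toUnitHom θ x := by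
    simp [χ]
  show ((θ' (φ x) : ℂˣ) : ℂ) = _
  rw [h1, h2, MulChar.coe_toUnitHom]

/-! ### existence of the large field -/
theorem exists_L (K : Type) [Field K] [Finite K] (ℓ : ℕ) (hl : ℓ.Prime)
    (hlp : ¬ ℓ ∣ Nat.card K) (b : ℕ) :
    ∃ (L : Type) (_ : Field L) (_ : Finite L) (_ : Algebra K L), ℓ ^ b ∣ Nat.card L - 1 := by
  obtain ⟨p, hp⟩ := CharP.exists K
  haveI : Fact p.Prime := ⟨CharP.char_is_prime K p⟩
  have hm0 : 0 < Nat.totient (ℓ ^ b) := Nat.totient_pos.mpr (pow_pos hl.pos b)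
  haveI : NeZero (Nat.totient (ℓ ^ b)) := ⟨hm0.ne'⟩
  refine ⟨FiniteField.Extension K p (Nat.totient (ℓ ^ b)), inferInstance, inferInstance,
    inferInstance, ?_⟩
  rw [FiniteField.natCard_extension]
  have h1 : Nat.Coprime (Nat.card K) (ℓ ^ b) := by
    apply Nat.Coprime.pow_right
    rw [Nat.coprime_comm]
    exact (Nat.Prime.coprime_iff_not_dvd hl).mpr hlp
  have h2 := Nat.ModEq.pow_totient h1
  exact (Nat.modEq_iff_dvd' (Nat.one_le_pow _ _ Nat.card_pos)).mp h2.symm

/-! ### permutation characters -/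
/-- the permutation representation on functions -/
def permRep (Γ M : Type) [Group Γ] [MulAction Γ M] : Representation ℂ Γ (M → ℂ) where
  toFun g := LinearMap.funLeft ℂ ℂ (fun m => g⁻¹ • m)
  map_one' := by ext f m; simp [LinearMap.funLeft]
  map_mul' g h := by ext f m; simp [LinearMap.funLeft, mul_smul]

theorem character_permRep {Γ M : Type} [Group Γ] [Finite M] [MulAction Γ M] (g : Γ) :
    (permRep Γ M).character g = (Nat.card {m : M // g • m = m} : ℂ) := by
  classical
  have : Fintype M := Fintype.ofFinite M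
  unfold Representation.character
  rw [LinearMap.trace_eq_matrix_trace ℂ (Pi.basisFun ℂ M), Matrix.trace]
  have h1 : ∀ m : M, (LinearMap.toMatrix (Pi.basisFun ℂ M) (Pi.basisFun ℂ M)
      ((permRep Γ M) g)).diag m = if g • m = m then 1 else 0 := by
    intro m
    rw [Matrix.diag_apply, LinearMap.toMatrix_apply]
    simp only [permRep, MonoidHom.coe_mk, OneHom.coe_mk, Pi.basisFun_apply, Pi.basisFun_repr,
      LinearMap.funLeft_apply, Pi.single_apply]
    have : (g⁻¹ • m = m) ↔ (g • m = m) := by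
      rw [inv_smul_eq_iff, eq_comm]
    simp only [this]
  rw [Finset.sum_congr rfl (fun m _ => h1 m), Finset.sum_boole, Nat.card_eq_fintype_card,
    Fintype.card_subtype]

theorem avg_int {Γ W : Type} [Group Γ] [Fintype Γ]
    [AddCommGroup W] [Module ℂ W] [FiniteDimensional ℂ W] (σ : Representation ℂ Γ W) :
    ∃ z : ℤ, ∑ γ : Γ, σ.character γ = (Nat.card Γ : ℂ) * z := by
  have hc : (Nat.card Γ : ℂ) ≠ 0 := by
    have : Nat.card Γ ≠ 0 := Nat.card_pos.ne'
    exact_mod_cast this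
  let _ : Invertible (Nat.card Γ : ℂ) := invertibleOfNonzero hc
  have h := Representation.card_inv_mul_sum_char_eq_finrank σ
  refine ⟨(Module.finrank ℂ (Representation.invariants σ) : ℤ), ?_⟩
  rw [Int.cast_natCast, ← h]
  field_simp

theorem avg_fix_int {Γ M W : Type} [Group Γ] [Fintype Γ] [Finite M] [MulAction Γ M]
    [AddCommGroup W] [Module ℂ W] [FiniteDimensional ℂ W] (σ : Representation ℂ Γ W) :
    ∃ z : ℤ, ∑ γ : Γ, (Nat.card {m : M // γ • m = m} : ℂ) * σ.character γ
      = (Nat.card Γ : ℂ) * z := by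
  obtain ⟨z, hz⟩ := avg_int (Representation.tprod (permRep Γ M) σ)
  refine ⟨z, ?_⟩
  rw [← hz]
  apply Finset.sum_congr rfl
  intro γ _
  rw [Representation.char_tensor, Pi.mul_apply, character_permRep]

/-- twist of an (inflated) representation by a linear character of a second factor -/
def twist {Γ H W : Type} [Group Γ] [Group H] [AddCommGroup W] [Module ℂ W]
    (ρ : Representation ℂ Γ W) (ψ : H →* ℂˣ) : Representation ℂ (Γ × H) W where
  toFun γ := ((ψ γ.2 : ℂˣ) : ℂ) • ρ γ.1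
  map_one' := by simp
  map_mul' g h := by
    ext w
    simp only [Prod.snd_mul, map_mul, Units.val_mul, Prod.fst_mul, mul_smul, LinearMap.smul_apply,
      Module.End.mul_apply, map_smul]
    exact smul_comm _ _ _

theorem character_twist {Γ H W : Type} [Group Γ] [Group H] [AddCommGroup W] [Module ℂ W]
    (ρ : Representation ℂ Γ W) (ψ : H →* ℂˣ) (γ : Γ × H) :
    (twist ρ ψ).character γ = ((ψ γ.2 : ℂˣ) : ℂ) * ρ.character γ.1 := by
  simp [twist, Representation.character]

/-! ### scalar extension of automorphisms -/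
section ext
variable {F : Type} [Field F] (L : Type) [Field L] [Algebra F L] {n : ℕ}

/-- scalar extension -/
noncomputable def ext : G F n →* Module.End L (Fin n → L) where
  toFun g := Matrix.toLin' ((LinearMap.toMatrix' (g : (Fin n → F) →ₗ[F] (Fin n → F))).map
    (algebraMap F L))
  map_one' := by
    have : (LinearMap.toMatrix' ((1 : G F n) : (Fin n → F) →ₗ[F] (Fin n → F))) = 1 := by
      have h : ((1 : G F n) : (Fin n → F) →ₗ[F] (Fin n → F)) = LinearMap.id := rfl
      rw [h, LinearMap.toMatrix'_id]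
    rw [this]
    simp
    rfl
  map_mul' g h := by
    have : ((g * h : G F n) : (Fin n → F) →ₗ[F] (Fin n → F)) =
      (g : (Fin n → F) →ₗ[F] (Fin n → F)) ∘ₗ (h : (Fin n → F) →ₗ[F] (Fin n → F)) := rfl
    rw [this, LinearMap.toMatrix'_comp, Matrix.map_mul, Matrix.toLin'_mul]
    rfl

theorem charpoly_ext (g : G F n) [Finite F] :
    (ext L g).charpoly = (cp g).map (algebraMap F L) := by
  have h1 : ext L g = Matrix.toLin' ((LinearMap.toMatrix'
    (g : (Fin n → F) →ₗ[F] (Fin n → F))).map (algebraMap F L)) := rfl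
  have h2 : cp g = (g : (Fin n → F) →ₗ[F] (Fin n → F)).charpoly := rfl
  rw [h1, h2, ← LinearMap.charpoly_toMatrix (g : (Fin n → F) →ₗ[F] (Fin n → F))
    (Pi.basisFun F (Fin n)), ← Matrix.charpoly_map,
    ← LinearMap.charpoly_toMatrix (Matrix.toLin' _) (Pi.basisFun L (Fin n)),
    LinearMap.toMatrix_eq_toMatrix', LinearMap.toMatrix_eq_toMatrix', LinearMap.toMatrix'_toLin']

end ext

/-! ### the permutation action -/

/-- The set acted on: functions from a cyclic group to `L^n`. -/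
def MM (L : Type) (n N : ℕ) : Type := ZMod N → Fin n → L

instance (L : Type) [Finite L] (n N : ℕ) [NeZero N] : Finite (MM L n N) :=
  inferInstanceAs (Finite (ZMod N → Fin n → L))

/-- the acting group -/
abbrev GG (F L : Type) [Field F] [Field L] (n N : ℕ) : Type :=
  G F n × (Lˣ × Multiplicative (ZMod N))

section act
variable {F L : Type} [Field F] [Field L] [Algebra F L] {n N : ℕ}

noncomputable instance : MulAction (GG F L n N) (MM L n N) where
  smul γ m := fun y => ((γ.2.1⁻¹ : Lˣ) : L) • (ext L γ.1) (m (y + Multiplicative.toAdd γ.2.2))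
  one_smul m := by
    funext y
    show (((1 : Lˣ)⁻¹ : Lˣ) : L) • (ext L (1 : G F n)) (m (y + Multiplicative.toAdd 1)) = m y
    simp
  mul_smul γ γ' m := by
    funext y
    show (((γ.2.1 * γ'.2.1)⁻¹ : Lˣ) : L) • (ext L (γ.1 * γ'.1))
        (m (y + Multiplicative.toAdd (γ.2.2 * γ'.2.2))) =
      ((γ.2.1⁻¹ : Lˣ) : L) • (ext L γ.1) (((γ'.2.1⁻¹ : Lˣ) : L) • (ext L γ'.1)
        (m (y + Multiplicative.toAdd γ.2.2 + Multiplicative.toAdd γ'.2.2)))
    rw [map_mul, map_smul, smul_smul, mul_inv, Units.val_mul, toAdd_mul, add_assoc]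
    rfl

theorem smul_apply (γ : GG F L n N) (m : MM L n N) (y : ZMod N) :
    (γ • m) y = ((γ.2.1⁻¹ : Lˣ) : L) • (ext L γ.1) (m (y + Multiplicative.toAdd γ.2.2)) := rfl

/-- fixed points for a generator of the cyclic group -/
theorem card_fix [NeZero N] (g : G F n) (x : Lˣ) (j : ZMod N) (hj : IsUnit j) :
    Nat.card {m : MM L n N // ((g, (x, Multiplicative.ofAdd j)) : GG F L n N) • m = m} =
      Nat.card {v : Fin n → L // ((((x⁻¹ : Lˣ) : L) • ext L g) ^ N) v = v} := by
  obtain ⟨u, rfl⟩ := hj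
  set T : Module.End L (Fin n → L) := ((x⁻¹ : Lˣ) : L) • ext L g with hT
  have hfix : ∀ m : MM L n N, ((g, (x, Multiplicative.ofAdd (u : ZMod N))) : GG F L n N) • m = m ↔
      ∀ y, T (m (y + u)) = m y := by
    intro m
    exact ⟨fun h y => congrFun h y, fun h => funext h⟩
  have hiter : ∀ m : MM L n N, (∀ y, T (m (y + u)) = m y) → ∀ i : ℕ, ∀ y,
      (T ^ i) (m (y + i * u)) = m y := by
    intro m hm i
    induction i with
    | zero => intro y; simp
    | succ i ih =>
      intro y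
      rw [pow_succ', Module.End.mul_apply]
      have : y + ((i + 1 : ℕ) : ZMod N) * u = (y + u) + i * u := by push_cast; ring
      rw [this, ih, hm]
  apply Nat.card_congr
  refine
    { toFun := fun m => ⟨m.1 0, ?_⟩
      invFun := fun v => ⟨fun y => (T ^ ((-y * ((u⁻¹ : (ZMod N)ˣ) : ZMod N)).val)) v.1, ?_⟩
      left_inv := ?_
      right_inv := ?_ }
  · have h1 := hiter m.1 ((hfix m.1).mp m.2) N 0
    simpa using h1
  · refine (hfix _).mpr fun y => ?_
    show T ((T ^ ((-(y + u) * ((u⁻¹ : (ZMod N)ˣ) : ZMod N)).val)) v.1) =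
      (T ^ ((-y * ((u⁻¹ : (ZMod N)ˣ) : ZMod N)).val)) v.1
    set a : ZMod N := -(y + u) * ((u⁻¹ : (ZMod N)ˣ) : ZMod N) with ha
    have hb : -y * ((u⁻¹ : (ZMod N)ˣ) : ZMod N) = a + 1 := by
      have huu : (u : ZMod N) * ((u⁻¹ : (ZMod N)ˣ) : ZMod N) = 1 := Units.mul_inv u
      rw [ha]; linear_combination huu
    rw [hb]
    rw [← Module.End.mul_apply, ← pow_succ']
    by_cases h : a.val + 1 = N
    · have h2 : (a + 1).val = 0 := by
        have : a + 1 = ((a.val + 1 : ℕ) : ZMod N) := by simp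
        rw [this, h]; simp
      rw [h, h2, v.2]; simp
    · have h2 : (a + 1).val = a.val + 1 := by
        have h3 : a + 1 = ((a.val + 1 : ℕ) : ZMod N) := by simp
        rw [h3, ZMod.val_natCast, Nat.mod_eq_of_lt]
        have := a.val_lt
        omega
      rw [h2]
  · intro m
    apply Subtype.ext
    funext y
    show (T ^ ((-y * ((u⁻¹ : (ZMod N)ˣ) : ZMod N)).val)) (m.1 0) = m.1 y
    have h1 := hiter m.1 ((hfix m.1).mp m.2) ((-y * ((u⁻¹ : (ZMod N)ˣ) : ZMod N)).val) y
    have huu : (u : ZMod N) * ((u⁻¹ : (ZMod N)ˣ) : ZMod N) = 1 := Units.mul_inv u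
    have hy : y + (((-y * ((u⁻¹ : (ZMod N)ˣ) : ZMod N)).val : ℕ) : ZMod N) * u = 0 := by
      rw [ZMod.natCast_val, ZMod.cast_id]
      linear_combination (-y) * huu
    rw [← h1, hy]
  · intro v
    apply Subtype.ext
    show (T ^ ((-0 * ((u⁻¹ : (ZMod N)ˣ) : ZMod N)).val)) v.1 = v.1
    simp

/-- counting eigenvectors -/
theorem card_ker [Finite F] [Finite L] (p s : ℕ) [Fact p.Prime] [CharP L p] (hs : n ≤ p ^ s)
    (g : G F n) (x : Lˣ) :
    Nat.card {v : Fin n → L // ((((x⁻¹ : Lˣ) : L) • ext L g) ^ (p ^ s)) v = v} =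
      Nat.card L ^ (((cp g).map (algebraMap F L)).rootMultiplicity (x : L)) := by
  set T : Module.End L (Fin n → L) := ext L g with hT
  have h1 : ∀ v : Fin n → L, ((((x⁻¹ : Lˣ) : L) • T) ^ (p ^ s)) v = v ↔
      v ∈ Module.End.maxGenEigenspace T (x : L) := by
    intro v
    have h2 : (((x⁻¹ : Lˣ) : L) • T) ^ (p ^ s) = (((x⁻¹ : Lˣ) : L) ^ (p ^ s)) • T ^ (p ^ s) :=
      _root_.smul_pow _ _ _
    have h3 : (T - (x : L) • (1 : Module.End L (Fin n → L))) ^ (p ^ s) =
        T ^ (p ^ s) - ((x : L) ^ (p ^ s)) • (1 : Module.End L (Fin n → L)) := by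
      have h4 : (X - C (x : L)) ^ (p ^ s) = (X : L[X]) ^ (p ^ s) - (C (x : L)) ^ (p ^ s) :=
        sub_pow_char_pow (p := p) _ _ s
      have h5 := congrArg (Polynomial.aeval T) h4
      rw [map_pow, map_sub, map_sub, map_pow, aeval_X, ← C_pow, aeval_C, aeval_C,
        Algebra.algebraMap_eq_smul_one, Algebra.algebraMap_eq_smul_one] at h5
      exact h5
    have h6 : ((((x⁻¹ : Lˣ) : L) • T) ^ (p ^ s)) v = v ↔
        ((T - (x : L) • (1 : Module.End L (Fin n → L))) ^ (p ^ s)) v = 0 := by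
      rw [h2, h3]
      simp only [LinearMap.smul_apply, LinearMap.sub_apply, Module.End.one_apply, sub_eq_zero]
      constructor
      · intro h
        conv_rhs => rw [← h]
        rw [smul_smul, ← mul_pow, Units.mul_inv, one_pow, one_smul]
      · intro h
        rw [h, smul_smul, ← mul_pow, Units.inv_mul, one_pow, one_smul]
    rw [h6]
    constructor
    · intro h
      exact Module.End.mem_maxGenEigenspace T (x : L) v |>.mpr ⟨p ^ s, h⟩
    · intro h
      rw [Module.End.maxGenEigenspace_eq_genEigenspace_finrank, Module.finrank_fin_fun] at h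
      have h7 := (T.genEigenspace (x : L)).monotone (show (n : ℕ∞) ≤ ((p ^ s : ℕ) : ℕ∞) by
        exact_mod_cast hs) h
      exact Module.End.mem_genEigenspace_nat.mp h7
  have h8 : Nat.card {v : Fin n → L // ((((x⁻¹ : Lˣ) : L) • T) ^ (p ^ s)) v = v} =
      Nat.card (Module.End.maxGenEigenspace T (x : L)) :=
    Nat.card_congr (Equiv.subtypeEquivRight h1)
  rw [h8, Module.natCard_eq_pow_finrank (K := L), LinearMap.finrank_maxGenEigenspace_eq,
    hT, charpoly_ext]

end act

/-! ### the additive character of order `p` -/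

theorem exists_lam (p s : ℕ) [hp : Fact p.Prime] (hs : 1 ≤ s) :
    haveI : NeZero (p ^ s) := ⟨pow_ne_zero _ hp.out.ne_zero⟩
    ∃ lam : AddChar (ZMod (p ^ s)) ℂ, (∑ j, lam j = 0) ∧
      (∀ j, ¬ IsUnit j → lam j = 1) := by
  have : NeZero (p ^ s) := ⟨pow_ne_zero _ hp.out.ne_zero⟩
  let c : ZMod (p ^ s) := ((p ^ (s - 1) : ℕ) : ZMod (p ^ s))
  refine ⟨AddChar.mulShift ZMod.stdAddChar c, ?_, ?_⟩
  · apply AddChar.sum_eq_zero_of_ne_one
    intro h
    have h1 : AddChar.mulShift (ZMod.stdAddChar (N := p ^ s)) c 1 = 1 := by rw [h]; simp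
    rw [AddChar.mulShift_apply, mul_one] at h1
    have h2 : c = 0 := by
      apply ZMod.injective_stdAddChar
      rw [h1]; simp
    have h3 : p ^ s ∣ p ^ (s - 1) := (ZMod.natCast_eq_zero_iff _ _).mp h2
    have h4 := (Nat.pow_dvd_pow_iff_le_right hp.out.one_lt).mp h3
    omega
  · intro j hj
    rw [AddChar.mulShift_apply]
    have h1 : p ∣ j.val := by
      by_contra h
      apply hj
      have h2 : Nat.Coprime j.val (p ^ s) := by
        apply Nat.Coprime.pow_right
        rw [Nat.coprime_comm]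
        exact (Nat.Prime.coprime_iff_not_dvd hp.out).mpr h
      have h3 := (ZMod.isUnit_iff_coprime j.val (p ^ s)).mpr h2
      rwa [ZMod.natCast_val, ZMod.cast_id] at h3
    have h2 : c * j = 0 := by
      obtain ⟨k, hk⟩ := h1
      have h3 : j = ((p * k : ℕ) : ZMod (p ^ s)) := by
        rw [← hk, ZMod.natCast_val, ZMod.cast_id]
      rw [h3, ← Nat.cast_mul]
      apply (ZMod.natCast_eq_zero_iff _ _).mpr
      refine ⟨k, ?_⟩
      have : p ^ s = p ^ (s - 1) * p := by rw [← pow_succ]; congr 1; omega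
      rw [this]; ring
    rw [h2]; simp

/-- value of `B` through the large field -/
theorem Bf_eq {F K L : Type} [Field F] [Finite F] [Field K] [Algebra F K] [Field L]
    [Fintype L] [Fintype Lˣ] [Algebra K L] [Algebra F L] [IsScalarTower F K L] {n : ℕ}
    (hsplit : ∀ P : F[X], P ≠ 0 → P.natDegree ≤ n → (P.map (algebraMap F K)).Splits)
    (θ : MulChar K ℂ) (θ' : Lˣ →* ℂˣ)
    (hθ' : ∀ x : Kˣ, (θ' (Units.map (algebraMap K L : K →* L) x) : ℂ) = θ x) (g : G F n) :
    CF.Bf K θ (Fin n → F) g = ∑ x : Lˣ, (θ' x : ℂ) *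
      (((cp g).map (algebraMap F L)).rootMultiplicity (x : L) : ℂ) := by
  classical
  have hcp : cp g = (g : (Fin n → F) →ₗ[F] (Fin n → F)).charpoly := rfl
  have hmon : (cp g).Monic := by rw [hcp]; exact LinearMap.charpoly_monic _
  have hdeg : (cp g).natDegree = n := by
    rw [hcp, LinearMap.charpoly_natDegree]; simp
  have hsp := hsplit (cp g) hmon.ne_zero hdeg.le
  have hmap : (cp g).map (algebraMap F L) =
      ((cp g).map (algebraMap F K)).map (algebraMap K L) := by
    rw [Polynomial.map_map, ← IsScalarTower.algebraMap_eq]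
  have hroots : ((cp g).map (algebraMap F L)).roots =
      ((cp g).map (algebraMap F K)).roots.map (algebraMap K L) := by
    rw [hmap]
    exact hsp.roots_map (algebraMap K L)
  set χ : MulChar L ℂ := MulChar.ofUnitHom θ' with hχ
  have hχθ : ∀ y : K, χ (algebraMap K L y) = θ y := by
    intro y
    by_cases hy : y = 0
    · subst hy; simp [MulChar.map_zero]
    · have h1 := hθ' (Units.mk0 y hy)
      have h2 : algebraMap K L y = ((Units.map (algebraMap K L : K →* L) (Units.mk0 y hy) : Lˣ) : L) :=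
        rfl
      rw [h2, hχ, MulChar.ofUnitHom_coe, h1]
      rfl
  have h1 : CF.Bf K θ (Fin n → F) g =
      (((cp g).map (algebraMap F L)).roots.map (fun x => χ x)).sum := by
    show (((cp g).map (algebraMap F K)).roots.map (fun x => θ x)).sum = _
    rw [hroots, Multiset.map_map]
    congr 1
    apply Multiset.map_congr rfl
    intro y _
    exact (hχθ y).symm
  have h2 : (((cp g).map (algebraMap F L)).roots.map (fun x => χ x)).sum =
      ∑ x : L, (((cp g).map (algebraMap F L)).rootMultiplicity x : ℂ) * χ x := by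
    rw [Finset.sum_multiset_map_count]
    rw [← Finset.sum_subset (Finset.subset_univ _)]
    · apply Finset.sum_congr rfl
      intro x _
      rw [count_roots, nsmul_eq_mul]
    · intro x _ hx
      rw [Multiset.mem_toFinset, ← Multiset.count_eq_zero, count_roots] at hx
      rw [hx]; simp
  rw [h1, h2]
  symm
  apply Fintype.sum_of_injective (fun x : Lˣ => (x : L)) Units.val_injective
  · intro x hx
    have : x = 0 := by
      by_contra h
      exact hx ⟨Units.mk0 x h, rfl⟩
    rw [this, MulChar.map_zero, mul_zero]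
  · intro x
    rw [hχ, MulChar.ofUnitHom_coe, mul_comm]

/-- sum over the abelian factor -/
theorem sum_H {F L : Type} [Field F] [Finite F] [Field L] [Fintype L] [Fintype Lˣ] [Algebra F L]
    {n : ℕ} (p s : ℕ) [Fact p.Prime] [CharP L p] [NeZero (p ^ s)] (hs : n ≤ p ^ s)
    (θ' : Lˣ →* ℂˣ) (lam : AddChar (ZMod (p ^ s)) ℂ) (h0 : ∑ j, lam j = 0)
    (h1 : ∀ j, ¬ IsUnit j → lam j = 1) (g : G F n) :
    ∑ x : Lˣ, ∑ j : ZMod (p ^ s), ((θ' x : ℂ) - (θ' x : ℂ) * lam j) *
      ((Nat.card {m : MM L n (p ^ s) //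
        ((g, (x, Multiplicative.ofAdd j)) : GG F L n (p ^ s)) • m = m} : ℂ) - 1) =
      ((Nat.card L : ℂ) - 1) * ((p ^ s : ℕ) : ℂ) * ∑ x : Lˣ, (θ' x : ℂ) *
        ∑ i ∈ Finset.range (((cp g).map (algebraMap F L)).rootMultiplicity (x : L)),
          (Nat.card L : ℂ) ^ i := by
  rw [Finset.mul_sum]
  apply Finset.sum_congr rfl
  intro x _
  set a := ((cp g).map (algebraMap F L)).rootMultiplicity (x : L) with ha
  have h2 : ∀ j : ZMod (p ^ s), ((θ' x : ℂ) - (θ' x : ℂ) * lam j) *
      ((Nat.card {m : MM L n (p ^ s) //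
        ((g, (x, Multiplicative.ofAdd j)) : GG F L n (p ^ s)) • m = m} : ℂ) - 1) =
      ((θ' x : ℂ) * ((Nat.card L : ℂ) ^ a - 1)) * (1 - lam j) := by
    intro j
    by_cases hj : IsUnit j
    · rw [card_fix g x j hj, card_ker p s hs g x]
      push_cast
      ring
    · rw [h1 j hj]; ring
  rw [Finset.sum_congr rfl (fun j _ => h2 j), ← Finset.mul_sum, Finset.sum_sub_distrib, h0]
  simp only [Finset.sum_const, Finset.card_univ, ZMod.card, nsmul_eq_mul, mul_one, sub_zero]
  rw [← geom_sum_mul]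
  ring

theorem isIntegral_nat (m : ℕ) : IsIntegral ℤ (m : ℂ) := by
  have := isIntegral_algebraMap (R := ℤ) (A := ℂ) (x := (m : ℤ))
  simpa using this

end INTL

open INTL in
theorem l_part_rational_integral {F : Type} [Field F] [Finite F] {K : Type} [Field K] [Finite K]
    [Algebra F K]
    (n : ℕ) (hK : Big F n K) (θ : MulChar K ℂ) (ℓ : ℕ) (hl : ℓ.Prime)
    (hlp : ¬ ℓ ∣ Nat.card F) (b : ℕ)
    {X : Type} [AddCommGroup X] [Module ℂ X] [FiniteDimensional ℂ X]
    (ρ : Representation ℂ (G F n) X) :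
    ∃ (z : ℤ) (w : ℂ), IsIntegral ℤ w ∧
      (Nat.card (G F n) : ℂ) * gip (fun g => CF.Bf K θ (Fin n → F) g) ρ.character
        = Nat.card (G F n) * z + (ℓ : ℂ) ^ b * w := by
  classical
  have hlK : ¬ ℓ ∣ Nat.card K := by
    rw [Module.natCard_eq_pow_finrank (K := F) (V := K)]
    exact fun h => hlp (hl.dvd_of_dvd_pow h)
  obtain ⟨L, _, _, _, hL⟩ := exists_L K ℓ hl hlK b
  let _ : Algebra F L := ((algebraMap K L).comp (algebraMap F K)).toAlgebra
  have : IsScalarTower F K L := IsScalarTower.of_algebraMap_eq' rfl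
  obtain ⟨θ', hθ'⟩ := exists_charExt (L := L) θ
  obtain ⟨p, hp⟩ := CharP.exists L
  have : Fact p.Prime := ⟨CharP.char_is_prime L p⟩
  obtain ⟨s, hs1, hsn⟩ : ∃ s, 1 ≤ s ∧ n ≤ p ^ s := by
    refine ⟨n + 1, by omega, ?_⟩
    have h1 : n + 1 < p ^ (n + 1) := Nat.lt_pow_self (Fact.out : p.Prime).one_lt
    omega
  have : NeZero (p ^ s) := ⟨pow_ne_zero _ (Fact.out : p.Prime).ne_zero⟩
  obtain ⟨lam, hlam0, hlam1⟩ := exists_lam p s hs1
  let _ : Fintype L := Fintype.ofFinite L
  let _ : Fintype Lˣ := Fintype.ofFinite Lˣ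
  let _ : Fintype (G F n) := Fintype.ofFinite _
  let ψ₀ : (Lˣ × Multiplicative (ZMod (p ^ s))) →* ℂˣ := θ'.comp (MonoidHom.fst _ _)
  let lamU : Multiplicative (ZMod (p ^ s)) →* ℂˣ := (AddChar.toMonoidHom lam).toHomUnits
  let ψ₁ : (Lˣ × Multiplicative (ZMod (p ^ s))) →* ℂˣ :=
    ψ₀ * lamU.comp (MonoidHom.snd _ _)
  have hlamU : ∀ j, ((lamU (Multiplicative.ofAdd j) : ℂˣ) : ℂ) = lam j := fun j => rfl
  -- the sums over the whole group
  obtain ⟨z₀, hz₀⟩ := avg_fix_int (M := MM L n (p ^ s)) (twist ρ.dual ψ₀)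
  obtain ⟨z₁, hz₁⟩ := avg_fix_int (M := MM L n (p ^ s)) (twist ρ.dual ψ₁)
  obtain ⟨z₂, hz₂⟩ := avg_int (twist ρ.dual ψ₀)
  obtain ⟨z₃, hz₃⟩ := avg_int (twist ρ.dual ψ₁)
  set z : ℤ := z₀ - z₁ - z₂ + z₃ with hz
  have hchar : ∀ (ψ : (Lˣ × Multiplicative (ZMod (p ^ s))) →* ℂˣ) (γ : GG F L n (p ^ s)),
      (twist ρ.dual ψ).character γ = (ψ γ.2 : ℂ) * conj (ρ.character γ.1) := by
    intro ψ γ
    rw [character_twist, Representation.char_dual, RT.char_inv]
  have hcardΓ : (Nat.card (GG F L n (p ^ s)) : ℂ) =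
      (Nat.card (G F n) : ℂ) * (((Nat.card L : ℂ) - 1) * ((p ^ s : ℕ) : ℂ)) := by
    rw [Nat.card_prod, Nat.card_prod]
    have h1 : Nat.card (Multiplicative (ZMod (p ^ s))) = p ^ s := Nat.card_zmod (p ^ s)
    have h2 : Nat.card Lˣ = Nat.card L - 1 := by
      rw [Nat.card_units]
    rw [h1, h2, Nat.cast_mul, Nat.cast_mul, Nat.cast_sub Nat.card_pos, Nat.cast_one]
  have key : ∑ g : G F n, (∑ x : Lˣ, ∑ j : ZMod (p ^ s), ((θ' x : ℂ) - (θ' x : ℂ) * lam j) *
      ((Nat.card {m : MM L n (p ^ s) //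
        ((g, (x, Multiplicative.ofAdd j)) : GG F L n (p ^ s)) • m = m} : ℂ) - 1)) *
          conj (ρ.character g) = (Nat.card (GG F L n (p ^ s)) : ℂ) * z := by
    have h1 : (Nat.card (GG F L n (p ^ s)) : ℂ) * z =
        ∑ γ : GG F L n (p ^ s), ((Nat.card {m : MM L n (p ^ s) // γ • m = m} : ℂ) - 1) *
          (((ψ₀ γ.2 : ℂ) - (ψ₁ γ.2 : ℂ)) * conj (ρ.character γ.1)) := by
      rw [hz]
      push_cast
      rw [mul_add, mul_sub, mul_sub, ← hz₀, ← hz₁, ← hz₂, ← hz₃, ← Finset.sum_sub_distrib,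
        ← Finset.sum_sub_distrib, ← Finset.sum_add_distrib]
      apply Finset.sum_congr rfl
      intro γ _
      rw [hchar, hchar]
      ring
    rw [h1, Fintype.sum_prod_type]
    apply Finset.sum_congr rfl
    intro g _
    rw [Fintype.sum_prod_type, Finset.sum_mul]
    apply Finset.sum_congr rfl
    intro x _
    rw [← Multiplicative.ofAdd.sum_comp, Finset.sum_mul]
    apply Finset.sum_congr rfl
    intro j _
    have h2 : ((ψ₀ (x, Multiplicative.ofAdd j) : ℂˣ) : ℂ) = θ' x := rfl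
    have h3 : ((ψ₁ (x, Multiplicative.ofAdd j) : ℂˣ) : ℂ) = (θ' x : ℂ) * lam j := by
      show ((ψ₀ (x, Multiplicative.ofAdd j) * lamU (Multiplicative.ofAdd j) : ℂˣ) : ℂ) = _
      rw [Units.val_mul, hlamU, h2]
    rw [h2, h3]
    ring
  simp only [sum_H p s hsn θ' lam hlam0 hlam1] at key
  have hH0 : ((Nat.card L : ℂ) - 1) * ((p ^ s : ℕ) : ℂ) ≠ 0 := by
    have h1 : 1 < Nat.card L := Finite.one_lt_card
    have h2 : ((Nat.card L : ℂ) - 1) ≠ 0 := by
      intro h
      have h3 : (Nat.card L : ℂ) = ((1 : ℕ) : ℂ) := by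
        rw [Nat.cast_one]; linear_combination h
      have := Nat.cast_injective h3
      omega
    refine mul_ne_zero h2 ?_
    exact_mod_cast (NeZero.ne (p ^ s))
  have key2 : ∑ g : G F n, (∑ x : Lˣ, (θ' x : ℂ) *
        ∑ i ∈ Finset.range (((cp g).map (algebraMap F L)).rootMultiplicity (x : L)),
          (Nat.card L : ℂ) ^ i) * conj (ρ.character g) = (Nat.card (G F n) : ℂ) * z := by
    apply mul_left_cancel₀ hH0
    rw [Finset.mul_sum]
    calc _ = (Nat.card (GG F L n (p ^ s)) : ℂ) * z := by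
            rw [← key]
            apply Finset.sum_congr rfl
            intro g _
            ring
      _ = _ := by rw [hcardΓ]; ring
  -- comparison with `B`
  obtain ⟨c, hc⟩ := hL
  have hQ : (Nat.card L : ℂ) - 1 = (ℓ : ℂ) ^ b * c := by
    have h1 : Nat.card L = ℓ ^ b * c + 1 := by
      have : 1 < Nat.card L := Finite.one_lt_card
      omega
    rw [h1]; push_cast; ring
  let t : ℕ → ℕ := fun a => ∑ i ∈ Finset.range a, ∑ k ∈ Finset.range i, (Nat.card L) ^ k
  have ht : ∀ a : ℕ, (∑ i ∈ Finset.range a, (Nat.card L : ℂ) ^ i) =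
      a + ((Nat.card L : ℂ) - 1) * t a := by
    intro a
    have h1 : ∀ i, (Nat.card L : ℂ) ^ i = 1 + ((Nat.card L : ℂ) - 1) *
        ((∑ k ∈ Finset.range i, (Nat.card L) ^ k : ℕ) : ℂ) := by
      intro i
      push_cast
      rw [mul_comm, geom_sum_mul]; ring
    rw [Finset.sum_congr rfl (fun i _ => h1 i), Finset.sum_add_distrib, ← Finset.mul_sum]
    simp [t]
  have hB : ∀ g : G F n, CF.Bf K θ (Fin n → F) g = (∑ x : Lˣ, (θ' x : ℂ) *
        ∑ i ∈ Finset.range (((cp g).map (algebraMap F L)).rootMultiplicity (x : L)),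
          (Nat.card L : ℂ) ^ i) - (ℓ : ℂ) ^ b * (c * ∑ x : Lˣ, (θ' x : ℂ) *
            t (((cp g).map (algebraMap F L)).rootMultiplicity (x : L))) := by
    intro g
    rw [Bf_eq (fun P h0 hP => big_splits n hK P h0 hP) θ θ' hθ' g, ← mul_assoc, ← hQ,
      Finset.mul_sum, ← Finset.sum_sub_distrib]
    apply Finset.sum_congr rfl
    intro x _
    rw [ht]; ring
  refine ⟨z, - ∑ g : G F n, (c * ∑ x : Lˣ, (θ' x : ℂ) *
            t (((cp g).map (algebraMap F L)).rootMultiplicity (x : L))) * conj (ρ.character g),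
            ?_, ?_⟩
  · apply IsIntegral.neg
    apply IsIntegral.sum
    intro g _
    refine IsIntegral.mul (IsIntegral.mul (isIntegral_nat c) (IsIntegral.sum _ fun x _ =>
      IsIntegral.mul ?_ (isIntegral_nat _))) ?_
    · apply IsIntegral.of_pow (n := Fintype.card Lˣ) Fintype.card_pos
      rw [← Units.val_pow_eq_pow_val, ← map_pow, pow_card_eq_one, map_one, Units.val_one]
      exact isIntegral_one
    · rw [← RT.char_inv]
      exact character_isIntegral ρ _
  · have hG0 : (Nat.card (G F n) : ℂ) ≠ 0 := by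
      have : Nat.card (G F n) ≠ 0 := Nat.card_pos.ne'
      exact_mod_cast this
    unfold gip
    rw [mul_div_cancel₀ _ hG0, finsum_eq_sum_of_fintype, ← key2, mul_neg, Finset.mul_sum,
      ← sub_eq_add_neg, ← Finset.sum_sub_distrib]
    apply Finset.sum_congr rfl
    intro g _
    show CF.Bf K θ (Fin n → F) g * _ = _
    rw [hB]; ring
end Pool.Agent.REll
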