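import Mathlib

/-!
# MP_f95f3f_co, block NUM: polynomiality of the counting formula on `q ≡ 1 mod n`
-/

open scoped BigOperators
open Polynomial

namespace Pool.Agent.REll

section NUM

/-- Newton: `m h_m = ∑_{j=1}^m d_j h_{m-j}` -/
noncomputable def nH (d : ℕ → ℚ) (m : ℕ) : ℚ :=
  if m = 0 then 1 else (∑ j : Fin m, d (j + 1) * nH d (m - 1 - j)) / m
termination_by m
decreasing_by omega

/-- `∑_i (-1)^i e_i h_{m-i} = 0` -/
noncomputable def nE (d : ℕ → ℚ) (m : ℕ) : ℚ :=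
  if m = 0 then 1 else (-1) ^ (m + 1) * ∑ i : Fin m, (-1) ^ (i : ℕ) * nE d i * nH d (m - i)
termination_by m

/-- hooks -/
noncomputable def nS (d : ℕ → ℚ) (m t : ℕ) : ℚ :=
  ∑ i ∈ Finset.range (t + 1), (-1) ^ i * nE d (t - i) * nH d (m - t + i)

/-- degree of the hook `t` of `n / s` over a cuspidal of degree `s`, up to sign -/
noncomputable def Dg (q n s t : ℕ) : ℚ :=
  (∏ i ∈ Finset.Icc 1 n, ((q : ℚ) ^ i - 1)) *
    nS (fun j => (-1) ^ (s * j - 1) / ((q : ℚ) ^ (s * j) - 1)) (n / s) t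

/-- least `s ≥ 1` with `a q^s ≡ a mod q^n - 1` -/
noncomputable def sa (q n a : ℕ) : ℕ := sInf {s : ℕ | 1 ≤ s ∧ (q ^ n - 1) ∣ a * (q ^ s - 1)}

open Classical in
/-- `⟨1_T, R_a⟩` -/
noncomputable def tau (q n a : ℕ) : ℚ :=
  (∑ c ∈ n.divisors, (ArithmeticFunction.moebius (n / c) : ℚ) * ((q : ℚ) ^ c - 1) *
    (if (q ^ c - 1) ∣ a then 1 else 0)) / ((q : ℚ) ^ n - 1)

/-- the counting formula -/
noncomputable def Gval (q n k : ℕ) : ℚ :=
  (∏ i ∈ Finset.range n, ((q : ℚ) ^ n - (q : ℚ) ^ i)) ^ k *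
    ∑ a ∈ Finset.range (q ^ n - 1), (1 / (sa q n a : ℚ)) *
      ∑ t ∈ Finset.range (n / sa q n a),
        ((-1) ^ t * (sa q n a : ℚ) * tau q n a / n) ^ (k + 1) / Dg q n (sa q n a) t ^ (k - 1)

end NUM

/-! ### rational functions on a set of integers -/

def RatOn (S : Set ℕ) (f : ℕ → ℚ) : Prop :=
  ∃ P Q : ℚ[X], ∀ q ∈ S, Q.eval (q : ℚ) ≠ 0 ∧ f q = P.eval (q : ℚ) / Q.eval (q : ℚ)

namespace RatOn
variable {S : Set ℕ}

theorem congr {f g : ℕ → ℚ} (hf : RatOn S f) (h : ∀ q ∈ S, g q = f q) : RatOn S g := by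
  obtain ⟨P, Q, hPQ⟩ := hf
  exact ⟨P, Q, fun q hq => ⟨(hPQ q hq).1, by rw [h q hq]; exact (hPQ q hq).2⟩⟩

theorem const (c : ℚ) : RatOn S (fun _ => c) :=
  ⟨C c, 1, fun q _ => by simp⟩

theorem var : RatOn S (fun q => (q : ℚ)) :=
  ⟨X, 1, fun q _ => by simp⟩

theorem add {f g : ℕ → ℚ} (hf : RatOn S f) (hg : RatOn S g) : RatOn S (fun q => f q + g q) := by
  obtain ⟨P, Q, h⟩ := hf
  obtain ⟨P', Q', h'⟩ := hg
  refine ⟨P * Q' + P' * Q, Q * Q', fun q hq => ?_⟩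
  obtain ⟨h1, h2⟩ := h q hq
  obtain ⟨h1', h2'⟩ := h' q hq
  refine ⟨by simp [h1, h1'], ?_⟩
  simp only [eval_add, eval_mul, h2, h2']
  field_simp

theorem mul {f g : ℕ → ℚ} (hf : RatOn S f) (hg : RatOn S g) : RatOn S (fun q => f q * g q) := by
  obtain ⟨P, Q, h⟩ := hf
  obtain ⟨P', Q', h'⟩ := hg
  refine ⟨P * P', Q * Q', fun q hq => ?_⟩
  obtain ⟨h1, h2⟩ := h q hq
  obtain ⟨h1', h2'⟩ := h' q hq
  refine ⟨by simp [h1, h1'], ?_⟩
  simp only [eval_mul, h2, h2']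
  field_simp

theorem neg {f : ℕ → ℚ} (hf : RatOn S f) : RatOn S (fun q => - f q) :=
  ((const (-1)).mul hf).congr (fun q _ => by ring)

theorem sub {f g : ℕ → ℚ} (hf : RatOn S f) (hg : RatOn S g) : RatOn S (fun q => f q - g q) :=
  (hf.add hg.neg).congr (fun q _ => by ring)

theorem inv {f : ℕ → ℚ} (hf : RatOn S f) (h0 : ∀ q ∈ S, f q ≠ 0) :
    RatOn S (fun q => (f q)⁻¹) := by
  obtain ⟨P, Q, h⟩ := hf
  refine ⟨Q, P, fun q hq => ?_⟩
  obtain ⟨h1, h2⟩ := h q hq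
  have h3 := h0 q hq
  rw [h2] at h3
  refine ⟨fun h4 => h3 (by rw [h4, zero_div]), ?_⟩
  show (f q)⁻¹ = _
  rw [h2, inv_div]

theorem div {f g : ℕ → ℚ} (hf : RatOn S f) (hg : RatOn S g) (h0 : ∀ q ∈ S, g q ≠ 0) :
    RatOn S (fun q => f q / g q) :=
  (hf.mul (hg.inv h0)).congr (fun q _ => by rw [div_eq_mul_inv])

theorem pow {f : ℕ → ℚ} (hf : RatOn S f) (k : ℕ) : RatOn S (fun q => f q ^ k) := by
  induction k with
  | zero => exact (const 1).congr (fun q _ => by simp)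
  | succ k ih => exact (ih.mul hf).congr (fun q _ => by rw [pow_succ])

theorem sum {ι : Type*} (s : Finset ι) {f : ι → ℕ → ℚ} (hf : ∀ i ∈ s, RatOn S (f i)) :
    RatOn S (fun q => ∑ i ∈ s, f i q) := by
  classical
  induction s using Finset.induction_on with
  | empty => exact (const 0).congr (fun q _ => by simp)
  | insert a s ha ih =>
    refine ((hf a (Finset.mem_insert_self _ _)).add
      (ih (fun i hi => hf i (Finset.mem_insert_of_mem hi)))).congr (fun q _ => ?_)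
    rw [Finset.sum_insert ha]

theorem prod {ι : Type*} (s : Finset ι) {f : ι → ℕ → ℚ} (hf : ∀ i ∈ s, RatOn S (f i)) :
    RatOn S (fun q => ∏ i ∈ s, f i q) := by
  classical
  induction s using Finset.induction_on with
  | empty => exact (const 1).congr (fun q _ => by simp)
  | insert a s ha ih =>
    refine ((hf a (Finset.mem_insert_self _ _)).mul
      (ih (fun i hi => hf i (Finset.mem_insert_of_mem hi)))).congr (fun q _ => ?_)
    rw [Finset.prod_insert ha]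

theorem qpow (k : ℕ) : RatOn S (fun q => (q : ℚ) ^ k) := var.pow k

theorem _root_.Pool.Agent.REll.exists_denom (A : ℚ[X]) :
    ∃ d : ℕ, 0 < d ∧ ∀ q : ℕ, ∃ z : ℤ, (d : ℚ) * A.eval (q : ℚ) = z := by
  induction A using Polynomial.induction_on' with
  | add p r hp hr =>
    obtain ⟨d, hd0, hd⟩ := hp
    obtain ⟨e, he0, he⟩ := hr
    refine ⟨d * e, by positivity, fun q => ?_⟩
    obtain ⟨z, hz⟩ := hd q
    obtain ⟨w, hw⟩ := he q
    refine ⟨e * z + d * w, ?_⟩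
    push_cast
    rw [← hz, ← hw, eval_add]
    ring
  | monomial n a =>
    refine ⟨a.den, a.pos, fun q => ⟨a.num * q ^ n, ?_⟩⟩
    rw [eval_monomial]
    push_cast
    rw [← mul_assoc, Rat.den_mul_eq_num]

/-- an integer valued rational function on an infinite set is a polynomial -/
theorem exists_poly {f : ℕ → ℚ} (hf : RatOn S f) (hS : S.Infinite)
    (hint : ∀ q ∈ S, ∃ z : ℤ, f q = z) : ∃ p : ℚ[X], ∀ q ∈ S, f q = p.eval (q : ℚ) := by
  obtain ⟨P, Q, h⟩ := hf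
  have hQ0 : Q ≠ 0 := by
    obtain ⟨q, hq⟩ := hS.nonempty
    intro h0
    exact (h q hq).1 (by rw [h0]; simp)
  set A : ℚ[X] := P / Q with hA
  set R : ℚ[X] := P % Q with hR
  have hPQ : P = Q * A + R := (EuclideanDomain.div_add_mod P Q).symm
  have hdeg : R.degree < Q.degree := EuclideanDomain.mod_lt P hQ0
  -- common denominator of the coefficients of `A`
  obtain ⟨d, hd0, hd⟩ := exists_denom A
  have hRzero : ∀ᶠ q : ℕ in Filter.atTop, q ∈ S → R.eval (q : ℚ) = 0 := by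
    have h1 : Filter.Tendsto (fun x : ℚ => eval x R / eval x Q) Filter.atTop (nhds 0) :=
      Polynomial.div_tendsto_atTop_zero_of_degree_lt R Q hdeg
    have h2 : Filter.Tendsto (fun q : ℕ => eval (q : ℚ) R / eval (q : ℚ) Q) Filter.atTop (nhds 0) :=
      h1.comp tendsto_natCast_atTop_atTop
    have h3 : Filter.Tendsto (fun q : ℕ => (d : ℚ) * (eval (q : ℚ) R / eval (q : ℚ) Q))
        Filter.atTop (nhds 0) := by
      simpa using h2.const_mul (d : ℚ)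
    have h4 : ∀ᶠ q : ℕ in Filter.atTop, |(d : ℚ) * (eval (q : ℚ) R / eval (q : ℚ) Q)| < 1 := by
      have := (h3.abs).eventually (gt_mem_nhds (show |(0 : ℚ)| < 1 by simp))
      exact this
    filter_upwards [h4] with q hq hqS
    obtain ⟨z, hz⟩ := hint q hqS
    obtain ⟨w, hw⟩ := hd q
    obtain ⟨h5, h6⟩ := h q hqS
    have h7 : (d : ℚ) * (eval (q : ℚ) R / eval (q : ℚ) Q) = ((d * z - w : ℤ) : ℚ) := by
      push_cast
      rw [← hz, ← hw, h6, hPQ]
      simp only [eval_add, eval_mul]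
      field_simp
      ring
    rw [h7] at hq
    have h8 : (d * z - w : ℤ) = 0 := by
      have : |((d * z - w : ℤ) : ℚ)| = ((|(d * z - w : ℤ)| : ℤ) : ℚ) := by push_cast; rfl
      rw [this] at hq
      have h9 : |(d * z - w : ℤ)| < 1 := by exact_mod_cast hq
      exact Int.abs_lt_one_iff.mp h9
    rw [h8] at h7
    have hd0' : (d : ℚ) ≠ 0 := by positivity
    have h10 : eval (q : ℚ) R / eval (q : ℚ) Q = 0 := by
      rcases mul_eq_zero.mp (h7.trans (by simp)) with h | h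
      · exact absurd h hd0'
      · exact h
    rcases div_eq_zero_iff.mp h10 with h | h
    · exact h
    · exact absurd h h5
  have hR0 : R = 0 := by
    by_contra hR1
    obtain ⟨N, hN⟩ := Filter.eventually_atTop.mp hRzero
    have hinf : (S \ {q | q < N}).Infinite := hS.sdiff (Set.finite_lt_nat N)
    have hsub : ((fun q : ℕ => (q : ℚ)) '' (S \ {q | q < N})) ⊆ (R.roots.toFinset : Set ℚ) := by
      rintro _ ⟨q, ⟨hq, hq'⟩, rfl⟩
      simp only [Finset.mem_coe, Multiset.mem_toFinset]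
      rw [mem_roots hR1]
      exact hN q (by simpa using hq') hq
    exact (hinf.image (Nat.cast_injective.injOn)) ((Finset.finite_toSet _).subset hsub)
  refine ⟨A, fun q hq => ?_⟩
  obtain ⟨h1, h2⟩ := h q hq
  rw [h2, hPQ, hR0]
  simp
  field_simp

end RatOn

open RatOn

theorem ratOn_nH {S : Set ℕ} {d : ℕ → ℕ → ℚ} (hd : ∀ j, 1 ≤ j → RatOn S (fun q => d q j)) :
    ∀ m, RatOn S (fun q => nH (d q) m) := by
  intro m
  induction m using Nat.strong_induction_on with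
  | _ m ih =>
    rcases Nat.eq_zero_or_pos m with hm | hm
    · subst hm
      exact (RatOn.const 1).congr (fun q _ => by rw [nH]; simp)
    · refine ((RatOn.sum (Finset.univ : Finset (Fin m))
        (f := fun j q => d q (j + 1) * nH (d q) (m - 1 - j)) (fun j _ =>
          (hd _ (by omega)).mul (ih _ (by omega)))).mul (RatOn.const (1 / (m : ℚ)))).congr
          (fun q _ => ?_)
      rw [nH, if_neg (by omega)]
      ring

theorem ratOn_nE {S : Set ℕ} {d : ℕ → ℕ → ℚ} (hd : ∀ j, 1 ≤ j → RatOn S (fun q => d q j)) :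
    ∀ m, RatOn S (fun q => nE (d q) m) := by
  intro m
  induction m using Nat.strong_induction_on with
  | _ m ih =>
    rcases Nat.eq_zero_or_pos m with hm | hm
    · subst hm
      exact (RatOn.const 1).congr (fun q _ => by rw [nE]; simp)
    · refine ((RatOn.const ((-1 : ℚ) ^ (m + 1))).mul (RatOn.sum (Finset.univ : Finset (Fin m))
        (f := fun i q => (-1 : ℚ) ^ (i : ℕ) * nE (d q) i * nH (d q) (m - i)) (fun i _ =>
          ((RatOn.const _).mul (ih _ i.2)).mul (ratOn_nH hd _)))).congr (fun q _ => ?_)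
      rw [nE, if_neg (by omega)]

theorem ratOn_nS {S : Set ℕ} {d : ℕ → ℕ → ℚ} (hd : ∀ j, 1 ≤ j → RatOn S (fun q => d q j))
    (m t : ℕ) : RatOn S (fun q => nS (d q) m t) := by
  unfold nS
  exact RatOn.sum _ (fun i _ => ((RatOn.const _).mul (ratOn_nE hd _)).mul (ratOn_nH hd _))

theorem qpow_sub_one_ne {q c : ℕ} (hq : 2 ≤ q) (hc : 1 ≤ c) : ((q : ℚ) ^ c - 1) ≠ 0 := by
  have h : (1 : ℚ) < (q : ℚ) ^ c := by
    have : 1 < q ^ c := Nat.one_lt_pow (by omega) (by omega)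
    exact_mod_cast this
  linarith

theorem ratOn_Dg {S : Set ℕ} (hS : ∀ q ∈ S, 2 ≤ q) (n s t : ℕ) (hs : 1 ≤ s) :
    RatOn S (fun q => Dg q n s t) := by
  unfold Dg
  refine (RatOn.prod _ (fun i _ => (RatOn.qpow i).sub (RatOn.const 1))).mul
    (ratOn_nS (d := fun q j => (-1) ^ (s * j - 1) / ((q : ℚ) ^ (s * j) - 1)) (fun j hj => ?_) _ _)
  refine (RatOn.const _).div ((RatOn.qpow _).sub (RatOn.const 1)) (fun q hq => ?_)
  exact qpow_sub_one_ne (hS q hq) (Nat.mul_pos hs hj)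

/-! ### arithmetic -/

theorem pow_sub_one_pos {q c : ℕ} (hq : 2 ≤ q) (hc : 1 ≤ c) : 0 < q ^ c - 1 := by
  have : 1 < q ^ c := Nat.one_lt_pow (by omega) (by omega)
  omega

theorem gcd_pow (q c d : ℕ) : Nat.gcd (q ^ c - 1) (q ^ d - 1) = q ^ (Nat.gcd c d) - 1 :=
  Nat.pow_sub_one_gcd_pow_sub_one q c d

theorem pow_sub_one_dvd {q c d : ℕ} (h : c ∣ d) : q ^ c - 1 ∣ q ^ d - 1 := by
  have := gcd_pow q c d
  rw [Nat.gcd_eq_left h] at this
  rw [← this]
  exact Nat.gcd_dvd_right _ _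

/-- the geometric sum as a quotient -/
theorem geom_eq {t b : ℕ} (ht : 2 ≤ t) : ∑ i ∈ Finset.range b, t ^ i = (t ^ b - 1) / (t - 1) := by
  exact Nat.geomSum_eq ht b

theorem geom_mul {t b : ℕ} (ht : 2 ≤ t) : (∑ i ∈ Finset.range b, t ^ i) * (t - 1) = t ^ b - 1 := by
  rw [geom_eq ht]
  exact Nat.div_mul_cancel (by simpa using pow_sub_one_dvd (q := t) (one_dvd b))

/-- permuting exponents modulo `b` -/
theorem sum_perm_modEq {t a b : ℕ} (ht : 1 ≤ t) (hb : 0 < b) (hab : Nat.Coprime a b) :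
    ∑ i ∈ Finset.range b, t ^ (a * i) ≡ ∑ i ∈ Finset.range b, t ^ i [MOD (t ^ b - 1)] := by
  have h1 : ∀ x, t ^ x ≡ t ^ (x % b) [MOD (t ^ b - 1)] := by
    intro x
    conv_lhs => rw [← Nat.mod_add_div x b, pow_add, pow_mul]
    have h2 : t ^ b ≡ 1 [MOD (t ^ b - 1)] := by
      have h3 : 1 ≤ t ^ b := Nat.one_le_pow _ _ ht
      have h4 : (t ^ b - 1) + 1 ≡ 0 + 1 [MOD (t ^ b - 1)] :=
        Nat.ModEq.add_right 1 (by simp [Nat.ModEq])
      simpa [Nat.sub_add_cancel h3] using h4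
    calc t ^ (x % b) * (t ^ b) ^ (x / b) ≡ t ^ (x % b) * 1 ^ (x / b) [MOD (t ^ b - 1)] :=
          Nat.ModEq.mul_left _ (h2.pow _)
      _ = t ^ (x % b) := by simp
  have h2 : ∑ i ∈ Finset.range b, t ^ (a * i) ≡ ∑ i ∈ Finset.range b, t ^ ((a * i) % b)
      [MOD (t ^ b - 1)] := by
    apply Nat.ModEq.sum
    intro i _
    exact h1 _
  refine h2.trans ?_
  have hinj : Set.InjOn (fun i => (a * i) % b) (Finset.range b : Set ℕ) := by
    intro i hi j hj hij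
    simp only [Finset.coe_range, Set.mem_Iio] at hi hj
    have h3 : a * i ≡ a * j [MOD b] := hij
    have h4 : i ≡ j [MOD b] := Nat.ModEq.cancel_left_of_coprime (by rw [Nat.gcd_comm]; exact hab) h3
    unfold Nat.ModEq at h4
    rwa [Nat.mod_eq_of_lt hi, Nat.mod_eq_of_lt hj] at h4
  have himg : (Finset.range b).image (fun i => (a * i) % b) = Finset.range b := by
    apply Finset.eq_of_subset_of_card_le
    · intro x hx
      simp only [Finset.mem_image, Finset.mem_range] at hx ⊢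
      obtain ⟨i, _, rfl⟩ := hx
      exact Nat.mod_lt _ hb
    · rw [Finset.card_image_of_injOn hinj]
  have h5 : ∑ i ∈ Finset.range b, t ^ ((a * i) % b) = ∑ i ∈ Finset.range b, t ^ i := by
    conv_rhs => rw [← himg]
    rw [Finset.sum_image hinj]
  rw [h5]


/-- the gcd formula, for `q ≡ 1 mod n` -/
theorem gcd_y {q n e c : ℕ} (hq : 2 ≤ q) (hn : 1 ≤ n) (hqn : q ≡ 1 [MOD n]) (he : e ∣ n)
    (hc : c ∣ n) :
    Nat.gcd ((q ^ n - 1) / (q ^ e - 1)) (q ^ c - 1) =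
      (n / Nat.lcm c e) * ((q ^ c - 1) / (q ^ (Nat.gcd c e) - 1)) := by
  have he0 : 0 < e := Nat.pos_of_dvd_of_pos he hn
  have hc0 : 0 < c := Nat.pos_of_dvd_of_pos hc hn
  obtain ⟨g, b, a, hg0, hba, hcg, heg⟩ : ∃ g b a : ℕ, 0 < g ∧ Nat.Coprime b a ∧ c = b * g ∧
      e = a * g := by
    obtain ⟨b, a, h, h1, h2⟩ := Nat.exists_coprime c e
    exact ⟨Nat.gcd c e, b, a, Nat.gcd_pos_of_pos_left _ hc0, h, h1, h2⟩
  have hg : Nat.gcd c e = g := by
    rw [hcg, heg, Nat.gcd_mul_right, hba.gcd_eq_one, one_mul]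
  have hl : Nat.lcm c e = a * b * g := by
    rw [Nat.lcm, hg, hcg, heg]
    rw [show b * g * (a * g) = (a * b * g) * g by ring, Nat.mul_div_cancel _ hg0]
  have hb0 : 0 < b := by
    rcases Nat.eq_zero_or_pos b with h | h
    · subst h; simp at hcg; omega
    · exact h
  have ha0 : 0 < a := by
    rcases Nat.eq_zero_or_pos a with h | h
    · subst h; simp at heg; omega
    · exact h
  have hln : Nat.lcm c e ∣ n := Nat.lcm_dvd hc he
  obtain ⟨r, hr⟩ := hln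
  have hl0 : 0 < Nat.lcm c e := Nat.lcm_pos hc0 he0
  have hrn : n / Nat.lcm c e = r := by
    rw [hr, Nat.mul_div_cancel_left _ hl0]
  rw [hrn, hg]
  set t := q ^ g with ht
  have ht2 : 2 ≤ t := by
    calc 2 ≤ q := hq
      _ = q ^ 1 := (pow_one q).symm
      _ ≤ q ^ g := Nat.pow_le_pow_right (by omega) hg0
  have hqc : q ^ c = t ^ b := by rw [hcg, ht, ← pow_mul, mul_comm]
  have hqe : q ^ e = t ^ a := by rw [heg, ht, ← pow_mul, mul_comm]
  have hql : q ^ Nat.lcm c e = t ^ (a * b) := by rw [hl, ht, ← pow_mul, mul_comm]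
  have hqn' : q ^ n = (t ^ (a * b)) ^ r := by rw [hr, pow_mul, hql]
  have hta2 : 2 ≤ t ^ a := le_trans ht2 (Nat.le_self_pow (by omega) t)
  have htab2 : 2 ≤ t ^ (a * b) := le_trans ht2 (Nat.le_self_pow (by positivity) t)
  have hb1 : 0 < t ^ a - 1 := by omega
  -- `y = (∑ (t^(ab))^u) * (∑ (t^a)^i)`
  have hy : (q ^ n - 1) / (q ^ e - 1) =
      (∑ u ∈ Finset.range r, (t ^ (a * b)) ^ u) * (∑ i ∈ Finset.range b, (t ^ a) ^ i) := by
    rw [hqn', hqe]
    apply Nat.div_eq_of_eq_mul_left hb1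
    rw [mul_assoc, geom_mul hta2, show (t ^ a) ^ b = t ^ (a * b) from (pow_mul t a b).symm,
      geom_mul htab2]
  have h1 : (∑ u ∈ Finset.range r, (t ^ (a * b)) ^ u) ≡ r [MOD (t ^ b - 1)] := by
    have h2 : ∀ u ∈ Finset.range r, (t ^ (a * b)) ^ u ≡ 1 [MOD (t ^ b - 1)] := by
      intro u _
      have h3 : t ^ b ≡ 1 [MOD (t ^ b - 1)] := by
        have h3 : 1 ≤ t ^ b := Nat.one_le_pow _ _ (by omega)
        have h4 : (t ^ b - 1) + 1 ≡ 0 + 1 [MOD (t ^ b - 1)] :=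
          Nat.ModEq.add_right 1 (by simp [Nat.ModEq])
        simpa [Nat.sub_add_cancel h3] using h4
      have h5 : (t ^ (a * b)) ^ u = (t ^ b) ^ (a * u) := by
        rw [(pow_mul t (a * b) u).symm, (pow_mul t b (a * u)).symm,
          show a * b * u = b * (a * u) by ring]
      rw [h5]
      simpa using h3.pow (a * u)
    have h6 : (∑ u ∈ Finset.range r, (t ^ (a * b)) ^ u) ≡ ∑ u ∈ Finset.range r, 1
        [MOD (t ^ b - 1)] := Nat.ModEq.sum h2
    simpa using h6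
  have h2 : (∑ i ∈ Finset.range b, (t ^ a) ^ i) ≡ (∑ i ∈ Finset.range b, t ^ i)
      [MOD (t ^ b - 1)] := by
    have := sum_perm_modEq (t := t) (a := a) (b := b) (by omega) hb0 hba.symm
    simpa [pow_mul] using this
  have h3 : (q ^ n - 1) / (q ^ e - 1) ≡ r * (∑ i ∈ Finset.range b, t ^ i) [MOD (q ^ c - 1)] := by
    rw [hy, hqc]
    exact h1.mul h2
  rw [h3.gcd_eq, hqc]
  have h4 : (t ^ b - 1) / (t - 1) = ∑ i ∈ Finset.range b, t ^ i := (geom_eq ht2).symm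
  rw [h4]
  conv_lhs => rw [← geom_mul (t := t) (b := b) ht2, mul_comm r, Nat.gcd_mul_left]
  have h5 : Nat.gcd r (t - 1) = r := by
    apply Nat.gcd_eq_left
    have h6 : r ∣ n := ⟨Nat.lcm c e, by rw [mul_comm]; exact hr⟩
    have h7 : n ∣ q - 1 := (Nat.modEq_iff_dvd' (by omega)).mp hqn.symm
    have h8 : q - 1 ∣ t - 1 := by
      have := pow_sub_one_dvd (q := q) (one_dvd g)
      simpa using this
    exact h6.trans (h7.trans h8)
  rw [h5, mul_comm]

/-- lcm of a list of functions -/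
def lcmL (l : List (ℕ → ℕ)) (q : ℕ) : ℕ := l.foldr (fun f r => Nat.lcm (f q) r) 1

@[simp] theorem lcmL_nil (q : ℕ) : lcmL [] q = 1 := rfl
@[simp] theorem lcmL_cons (f : ℕ → ℕ) (l : List (ℕ → ℕ)) (q : ℕ) :
    lcmL (f :: l) q = Nat.lcm (f q) (lcmL l q) := rfl

theorem lcmL_dvd (l : List (ℕ → ℕ)) (q a : ℕ) : lcmL l q ∣ a ↔ ∀ f ∈ l, f q ∣ a := by
  induction l with
  | nil => simp
  | cons f l ih => simp [Nat.lcm_dvd_iff, ih]

theorem lcmL_pos (l : List (ℕ → ℕ)) (q : ℕ) (h : ∀ f ∈ l, 0 < f q) : 0 < lcmL l q := by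
  induction l with
  | nil => simp
  | cons f l ih =>
    simp only [List.mem_cons, forall_eq_or_imp] at h
    exact Nat.lcm_pos h.1 (ih h.2)

theorem gcd_lcm_distrib {a b c : ℕ} (ha : 0 < a) (hb : 0 < b) (hc : 0 < c) :
    Nat.gcd a (Nat.lcm b c) = Nat.lcm (Nat.gcd a b) (Nat.gcd a c) := by
  have h1 : Nat.gcd a b ≠ 0 := (Nat.gcd_pos_of_pos_left b ha).ne'
  have h2 : Nat.gcd a c ≠ 0 := (Nat.gcd_pos_of_pos_left c ha).ne'
  have h3 : Nat.lcm b c ≠ 0 := (Nat.lcm_pos hb hc).ne'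
  apply Nat.eq_of_factorization_eq (Nat.gcd_pos_of_pos_left _ ha).ne'
    (Nat.lcm_pos (Nat.pos_of_ne_zero h1) (Nat.pos_of_ne_zero h2)).ne'
  intro p
  rw [Nat.factorization_gcd ha.ne' h3, Nat.factorization_lcm h1 h2,
    Nat.factorization_lcm hb.ne' hc.ne', Nat.factorization_gcd ha.ne' hb.ne',
    Nat.factorization_gcd ha.ne' hc.ne']
  simp only [Finsupp.inf_apply, Finsupp.sup_apply]
  exact inf_sup_left _ _ _

theorem gcd_lcmL (f : ℕ → ℕ) (l : List (ℕ → ℕ)) (q : ℕ) (hf : 0 < f q)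
    (hl : ∀ g ∈ l, 0 < g q) :
    Nat.gcd (f q) (lcmL l q) = lcmL (l.map (fun g q => Nat.gcd (f q) (g q))) q := by
  induction l with
  | nil => simp
  | cons g l ih =>
    simp only [List.mem_cons, forall_eq_or_imp] at hl
    simp only [lcmL_cons, List.map_cons]
    rw [← ih hl.2, gcd_lcm_distrib hf hl.1 (lcmL_pos l q hl.2)]

theorem ratOn_lcmL {S : Set ℕ} (𝓕 : Set (ℕ → ℕ))
    (hrat : ∀ f ∈ 𝓕, RatOn S (fun q => (f q : ℚ))) (hpos : ∀ f ∈ 𝓕, ∀ q ∈ S, 0 < f q)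
    (hgcd : ∀ f ∈ 𝓕, ∀ g ∈ 𝓕, (fun q => Nat.gcd (f q) (g q)) ∈ 𝓕) :
    ∀ (m : ℕ) (l : List (ℕ → ℕ)), l.length = m → (∀ f ∈ l, f ∈ 𝓕) →
      RatOn S (fun q => (lcmL l q : ℚ)) := by
  intro m
  induction m with
  | zero =>
    intro l hl _
    have : l = [] := List.length_eq_zero_iff.mp hl
    subst this
    exact (RatOn.const 1).congr (fun q _ => by simp)
  | succ m ih =>
    intro l hl hl𝓕
    cases l with
    | nil => simp at hl
    | cons f l =>
      simp only [List.length_cons, Nat.add_right_cancel_iff] at hl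
      simp only [List.mem_cons, forall_eq_or_imp] at hl𝓕
      have h1 := ih l hl hl𝓕.2
      have h2 := ih (l.map (fun g q => Nat.gcd (f q) (g q))) (by simpa using hl) (by
        intro h hh
        simp only [List.mem_map] at hh
        obtain ⟨g, hg, rfl⟩ := hh
        exact hgcd f hl𝓕.1 g (hl𝓕.2 g hg))
      have hne : ∀ q ∈ S, ((Nat.gcd (f q) (lcmL l q) : ℕ) : ℚ) ≠ 0 := by
        intro q hq
        have := Nat.gcd_pos_of_pos_left (lcmL l q) (hpos f hl𝓕.1 q hq)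
        positivity
      refine (((hrat f hl𝓕.1).mul h1).div h2 (fun q hq => ?_)).congr (fun q hq => ?_)
      · rw [← gcd_lcmL f l q (hpos f hl𝓕.1 q hq) (fun g hg => hpos g (hl𝓕.2 g hg) q hq)]
        exact hne q hq
      · rw [← gcd_lcmL f l q (hpos f hl𝓕.1 q hq) (fun g hg => hpos g (hl𝓕.2 g hg) q hq),
          lcmL_cons, eq_div_iff (hne q hq), mul_comm]
        exact_mod_cast Nat.gcd_mul_lcm (f q) (lcmL l q)

/-- the summation (Moebius-free) lemma -/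
theorem ratOn_moebius {S : Set ℕ} {I : Type*} [DecidableEq I] (T : Finset I) (r : I → I → Prop)
    [DecidableRel r] (μ : I → ℕ) (hr : ∀ i j, r i j → j ≠ i → μ j < μ i) (hrefl : ∀ i, r i i)
    (M M' : I → ℕ → ℚ) (hM : ∀ i ∈ T, RatOn S (M i))
    (hsum : ∀ i ∈ T, ∀ q ∈ S, M i q = ∑ j ∈ T.filter (r i), M' j q) :
    ∀ i ∈ T, RatOn S (M' i) := by
  suffices h : ∀ m, ∀ i ∈ T, μ i = m → RatOn S (M' i) from fun i hi => h _ i hi rfl
  intro m
  induction m using Nat.strong_induction_on with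
  | _ m ih =>
    intro i hi him
    have h1 : RatOn S (fun q => ∑ j ∈ (T.filter (r i)).erase i, M' j q) := by
      apply RatOn.sum
      intro j hj
      simp only [Finset.mem_erase, Finset.mem_filter] at hj
      exact ih (μ j) (by rw [← him]; exact hr i j hj.2.2 hj.1) j hj.2.1 rfl
    refine ((hM i hi).sub h1).congr (fun q hq => ?_)
    rw [hsum i hi q hq, ← Finset.add_sum_erase (T.filter (r i)) (fun j => M' j q)
      (Finset.mem_filter.mpr ⟨hi, hrefl i⟩)]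
    ring

theorem card_multiples' {N L : ℕ} (hN : 0 < N) (hL : L ∣ N) :
    ((Finset.range N).filter (fun a => L ∣ a)).card = N / L := by
  obtain ⟨m, rfl⟩ := hL
  have hL0 : 0 < L := Nat.pos_of_mul_pos_right hN |> fun h => by
    rcases Nat.eq_zero_or_pos L with h | h
    · subst h; simp at hN
    · exact h
  rw [Nat.mul_div_cancel_left _ hL0]
  have : (Finset.range (L * m)).filter (fun a => L ∣ a) = (Finset.range m).image (fun i => L * i) := by
    ext a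
    simp only [Finset.mem_filter, Finset.mem_range, Finset.mem_image]
    constructor
    · rintro ⟨h1, i, rfl⟩
      exact ⟨i, Nat.lt_of_mul_lt_mul_left h1, rfl⟩
    · rintro ⟨i, hi, rfl⟩
      exact ⟨Nat.mul_lt_mul_of_pos_left hi hL0, dvd_mul_right _ _⟩
  rw [this, Finset.card_image_of_injective _ (fun i j h => Nat.eq_of_mul_eq_mul_left hL0 h),
    Finset.card_range]

/-! ### the family for a fixed `e` -/

/-- `(q^n-1)/(q^e-1)` -/
def yf (n e : ℕ) (q : ℕ) : ℕ := (q ^ n - 1) / (q ^ e - 1)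
/-- `q^c-1` -/
def xf (c : ℕ) (q : ℕ) : ℕ := q ^ c - 1

/-- the gcd closed family -/
def Fam (n e : ℕ) : Set (ℕ → ℕ) :=
  {f | ∃ c, c ∣ n ∧ (f = xf c ∨ f = fun q => Nat.gcd (yf n e q) (xf c q))}

theorem Fam_gcd (n e : ℕ) : ∀ f ∈ Fam n e, ∀ g ∈ Fam n e,
    (fun q => Nat.gcd (f q) (g q)) ∈ Fam n e := by
  have h0 : ∀ c d q, Nat.gcd (xf c q) (xf d q) = xf (Nat.gcd c d) q := fun c d q => gcd_pow q c d
  rintro f ⟨c, hc, hf⟩ g ⟨d, hd, hg⟩
  refine ⟨Nat.gcd c d, (Nat.gcd_dvd_left c d).trans hc, ?_⟩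
  rcases hf with rfl | rfl <;> rcases hg with rfl | rfl
  · left; funext q; exact h0 c d q
  · right; funext q
    rw [← h0, Nat.gcd_comm (xf c q), Nat.gcd_assoc, Nat.gcd_comm (xf d q)]
  · right; funext q
    rw [← h0, Nat.gcd_assoc]
  · right; funext q
    rw [← h0]
    show Nat.gcd (Nat.gcd (yf n e q) (xf c q)) (Nat.gcd (yf n e q) (xf d q)) = _
    rw [Nat.gcd_assoc, ← Nat.gcd_assoc (xf c q), Nat.gcd_comm (xf c q) (yf n e q),
      Nat.gcd_assoc (yf n e q) (xf c q), ← Nat.gcd_assoc (yf n e q) (yf n e q), Nat.gcd_self]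

theorem ratOn_xf {S : Set ℕ} (hS : ∀ q ∈ S, 2 ≤ q) (c : ℕ) : RatOn S (fun q => (xf c q : ℚ)) := by
  refine ((RatOn.qpow c).sub (RatOn.const 1)).congr (fun q hq => ?_)
  have : 1 ≤ q ^ c := Nat.one_le_pow _ _ (by have := hS q hq; omega)
  unfold xf
  push_cast [Nat.cast_sub this]
  ring

theorem cast_div_xf {q a b : ℕ} (hq : 2 ≤ q) (ha : 1 ≤ a) (hab : a ∣ b) :
    (((q ^ b - 1) / (q ^ a - 1) : ℕ) : ℚ) = (xf b q : ℚ) / (xf a q : ℚ) := by
  rw [Nat.cast_div (pow_sub_one_dvd hab)]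
  · rfl
  · have := pow_sub_one_pos hq ha
    positivity

theorem ratOn_Fam {S : Set ℕ} {n : ℕ} (hn : 1 ≤ n) (hS1 : ∀ q ∈ S, 2 ≤ q ∧ q ≡ 1 [MOD n])
    (e : ℕ) (he : e ∣ n) : ∀ f ∈ Fam n e, RatOn S (fun q => (f q : ℚ)) := by
  have hS : ∀ q ∈ S, 2 ≤ q := fun q hq => (hS1 q hq).1
  rintro f ⟨c, hc, rfl | rfl⟩
  · exact ratOn_xf hS c
  · have hc0 : 0 < c := Nat.pos_of_dvd_of_pos hc hn
    refine ((RatOn.const ((n / Nat.lcm c e : ℕ) : ℚ)).mul
      ((ratOn_xf hS c).div (ratOn_xf hS (Nat.gcd c e)) (fun q hq => ?_))).congr (fun q hq => ?_)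
    · have := pow_sub_one_pos (hS q hq) (Nat.gcd_pos_of_pos_left e hc0)
      unfold xf
      positivity
    · show ((Nat.gcd ((q ^ n - 1) / (q ^ e - 1)) (q ^ c - 1) : ℕ) : ℚ) = _
      rw [gcd_y (hS q hq) hn (hS1 q hq).2 he hc, Nat.cast_mul,
        cast_div_xf (hS q hq) (Nat.gcd_pos_of_pos_left e hc0) (Nat.gcd_dvd_left c e)]

theorem yf_pos {n e q : ℕ} (hq : 2 ≤ q) (hn : 1 ≤ n) (he : e ∣ n) : 0 < yf n e q := by
  have he0 : 0 < e := Nat.pos_of_dvd_of_pos he hn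
  exact Nat.div_pos (Nat.le_of_dvd (pow_sub_one_pos hq hn) (pow_sub_one_dvd he))
    (pow_sub_one_pos hq he0)

theorem Fam_pos {S : Set ℕ} {n : ℕ} (hn : 1 ≤ n) (hS : ∀ q ∈ S, 2 ≤ q)
    (e : ℕ) : ∀ f ∈ Fam n e, ∀ q ∈ S, 0 < f q := by
  rintro f ⟨c, hc, rfl | rfl⟩ q hq
  · exact pow_sub_one_pos (hS q hq) (Nat.pos_of_dvd_of_pos hc hn)
  · exact Nat.gcd_pos_of_pos_right _ (pow_sub_one_pos (hS q hq) (Nat.pos_of_dvd_of_pos hc hn))

theorem yf_mem_Fam (n e : ℕ) (he : e ∣ n) : yf n e ∈ Fam n e := by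
  refine ⟨n, dvd_rfl, Or.inr ?_⟩
  funext q
  symm
  apply Nat.gcd_eq_left
  exact Nat.div_dvd_of_dvd (pow_sub_one_dvd he)

theorem dvd_yf_iff {q n e a : ℕ} (hq : 2 ≤ q) (hn : 1 ≤ n) (he : e ∣ n) :
    (q ^ n - 1) ∣ a * (q ^ e - 1) ↔ yf n e q ∣ a := by
  have he0 : 0 < e := Nat.pos_of_dvd_of_pos he hn
  unfold yf
  rw [Nat.div_dvd_iff_dvd_mul (pow_sub_one_dvd he) (pow_sub_one_pos hq he0), mul_comm]

/-- the number of `a` with the prescribed conditions -/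
theorem ratOn_count {S : Set ℕ} {n : ℕ} (hn : 1 ≤ n) (hS1 : ∀ q ∈ S, 2 ≤ q ∧ q ≡ 1 [MOD n])
    (e : ℕ) (he : e ∣ n) (D : Finset ℕ) (hD : ∀ c ∈ D, c ∣ n) :
    RatOn S (fun q => (((Finset.range (q ^ n - 1)).filter (fun a =>
      (q ^ n - 1) ∣ a * (q ^ e - 1) ∧ ∀ c ∈ D, (q ^ c - 1) ∣ a)).card : ℚ)) := by
  have hS : ∀ q ∈ S, 2 ≤ q := fun q hq => (hS1 q hq).1
  set l : List (ℕ → ℕ) := yf n e :: D.toList.map xf with hl
  have hlF : ∀ f ∈ l, f ∈ Fam n e := by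
    intro f hf
    simp only [hl, List.mem_cons, List.mem_map, Finset.mem_toList] at hf
    rcases hf with rfl | ⟨c, hc, rfl⟩
    · exact yf_mem_Fam n e he
    · exact ⟨c, hD c hc, Or.inl rfl⟩
  have h1 : RatOn S (fun q => (lcmL l q : ℚ)) :=
    ratOn_lcmL (Fam n e) (ratOn_Fam hn hS1 e he) (Fam_pos hn hS e) (Fam_gcd n e) _ l rfl hlF
  have hLpos : ∀ q ∈ S, 0 < lcmL l q := fun q hq =>
    lcmL_pos l q (fun f hf => Fam_pos hn hS e f (hlF f hf) q hq)
  refine ((ratOn_xf hS n).div h1 (fun q hq => ?_)).congr (fun q hq => ?_)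
  · have := hLpos q hq
    positivity
  · have hq2 := hS q hq
    have h2 : (Finset.range (q ^ n - 1)).filter (fun a =>
      (q ^ n - 1) ∣ a * (q ^ e - 1) ∧ ∀ c ∈ D, (q ^ c - 1) ∣ a) =
        (Finset.range (q ^ n - 1)).filter (fun a => lcmL l q ∣ a) := by
      apply Finset.filter_congr
      intro a _
      rw [lcmL_dvd, dvd_yf_iff hq2 hn he]
      simp [hl, xf]
    have h3 : lcmL l q ∣ q ^ n - 1 := by
      rw [lcmL_dvd]
      intro f hf
      simp only [hl, List.mem_cons, List.mem_map, Finset.mem_toList] at hf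
      rcases hf with rfl | ⟨c, hc, rfl⟩
      · exact Nat.div_dvd_of_dvd (pow_sub_one_dvd he)
      · exact pow_sub_one_dvd (hD c hc)
    rw [h2, card_multiples' (pow_sub_one_pos hq2 hn) h3, Nat.cast_div h3]
    · rfl
    · have := hLpos q hq
      positivity

/-! ### `sa` -/

theorem sa_spec {q n : ℕ} (hn : 1 ≤ n) (a : ℕ) :
    1 ≤ sa q n a ∧ (q ^ n - 1) ∣ a * (q ^ sa q n a - 1) := by
  have : (sa q n a) ∈ {s : ℕ | 1 ≤ s ∧ (q ^ n - 1) ∣ a * (q ^ s - 1)} :=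
    Nat.sInf_mem ⟨n, hn, dvd_mul_left _ _⟩
  exact this

theorem sa_dvd_iff {q n : ℕ} (hn : 1 ≤ n) (a e : ℕ) (he : 1 ≤ e) :
    (q ^ n - 1) ∣ a * (q ^ e - 1) ↔ sa q n a ∣ e := by
  obtain ⟨h1, h2⟩ := sa_spec (q := q) hn a
  constructor
  · intro h
    have h3 : (q ^ n - 1) ∣ a * (q ^ (Nat.gcd (sa q n a) e) - 1) := by
      rw [← gcd_pow, ← Nat.gcd_mul_left]
      exact Nat.dvd_gcd h2 h
    have h4 : 1 ≤ Nat.gcd (sa q n a) e := Nat.gcd_pos_of_pos_left _ h1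
    have h5 : sa q n a ≤ Nat.gcd (sa q n a) e := Nat.sInf_le ⟨h4, h3⟩
    have h6 : Nat.gcd (sa q n a) e = sa q n a :=
      le_antisymm (Nat.le_of_dvd h1 (Nat.gcd_dvd_left _ _)) h5
    rw [← h6]
    exact Nat.gcd_dvd_right _ _
  · intro h
    exact h2.trans (Nat.mul_dvd_mul_left a (pow_sub_one_dvd h))

theorem sa_dvd {q n : ℕ} (hn : 1 ≤ n) (a : ℕ) : sa q n a ∣ n :=
  (sa_dvd_iff hn a n hn).mp (dvd_mul_left _ _)

/-! ### patterns -/

/-- divisibility pattern -/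
noncomputable def Dset (q n a : ℕ) : Finset ℕ := n.divisors.filter (fun c => (q ^ c - 1) ∣ a)

theorem ratOn_pattern {S : Set ℕ} {n : ℕ} (hn : 1 ≤ n) (hS1 : ∀ q ∈ S, 2 ≤ q ∧ q ≡ 1 [MOD n]) :
    ∀ i ∈ n.divisors ×ˢ n.divisors.powerset,
      RatOn S (fun q => (((Finset.range (q ^ n - 1)).filter (fun a =>
        (sa q n a, Dset q n a) = i)).card : ℚ)) := by
  have hn0 : n ≠ 0 := by omega
  refine ratOn_moebius (n.divisors ×ˢ n.divisors.powerset)
    (fun i j => j.1 ∣ i.1 ∧ 1 ≤ i.1 ∧ i.2 ⊆ j.2 ∧ j.2 ⊆ n.divisors ∨ j = i)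
    (fun i => i.1 + (n.divisors.card - i.2.card)) ?_ (fun i => Or.inr rfl)
    (fun i q => (((Finset.range (q ^ n - 1)).filter (fun a =>
      (q ^ n - 1) ∣ a * (q ^ i.1 - 1) ∧ ∀ c ∈ i.2, (q ^ c - 1) ∣ a)).card : ℚ)) _ ?_ ?_
  · rintro ⟨s, D⟩ ⟨s', D'⟩ h hne
    simp only at h ⊢
    rcases h with ⟨h1, h1', h2, h3⟩ | h
    · have h4 : s' ≤ s := Nat.le_of_dvd h1' h1
      have h5 : D.card ≤ D'.card := Finset.card_le_card h2
      have h6 : D'.card ≤ n.divisors.card := Finset.card_le_card h3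
      by_cases h7 : s' = s
      · subst h7
        have h8 : D ≠ D' := fun h8 => hne (by rw [h8])
        have h9 : D.card < D'.card := Finset.card_lt_card (Finset.ssubset_iff_subset_ne.mpr ⟨h2, h8⟩)
        omega
      · have : s' < s := lt_of_le_of_ne h4 h7
        omega
    · exact absurd h hne
  · rintro ⟨s, D⟩ hi
    simp only [Finset.mem_product, Nat.mem_divisors, Finset.mem_powerset] at hi
    exact ratOn_count hn hS1 s hi.1.1 D (fun c hc => Nat.dvd_of_mem_divisors (hi.2 hc))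
  · rintro ⟨s, D⟩ hi q hq
    simp only [Finset.mem_product, Nat.mem_divisors, Finset.mem_powerset] at hi
    have hs1 : 1 ≤ s := Nat.pos_of_dvd_of_pos hi.1.1 hn
    have hkey : ∀ a, ((q ^ n - 1) ∣ a * (q ^ s - 1) ∧ ∀ c ∈ D, (q ^ c - 1) ∣ a) ↔
        (sa q n a ∣ s ∧ D ⊆ Dset q n a) := by
      intro a
      rw [sa_dvd_iff hn a s hs1]
      refine and_congr Iff.rfl ⟨fun h c hc => ?_, fun h c hc => ?_⟩
      · exact Finset.mem_filter.mpr ⟨hi.2 hc, h c hc⟩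
      · exact (Finset.mem_filter.mp (h hc)).2
    have hmaps : ∀ a ∈ (Finset.range (q ^ n - 1)).filter (fun a =>
        (q ^ n - 1) ∣ a * (q ^ s - 1) ∧ ∀ c ∈ D, (q ^ c - 1) ∣ a),
        (sa q n a, Dset q n a) ∈ (n.divisors ×ˢ n.divisors.powerset).filter
          (fun j => j.1 ∣ s ∧ 1 ≤ s ∧ D ⊆ j.2 ∧ j.2 ⊆ n.divisors ∨ j = (s, D)) := by
      intro a ha
      rw [Finset.mem_filter] at ha
      have h1 := (hkey a).mp ha.2
      simp only [Finset.mem_filter, Finset.mem_product, Nat.mem_divisors, Finset.mem_powerset]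
      refine ⟨⟨⟨sa_dvd hn a, hn0⟩, Finset.filter_subset _ _⟩, Or.inl ⟨h1.1, hs1, h1.2,
        Finset.filter_subset _ _⟩⟩
    show ((Finset.card _ : ℕ) : ℚ) = _
    rw [Finset.card_eq_sum_card_fiberwise hmaps, Nat.cast_sum]
    apply Finset.sum_congr rfl
    rintro ⟨s', D'⟩ hj
    simp only [Finset.mem_filter, Finset.mem_product, Nat.mem_divisors, Finset.mem_powerset] at hj
    congr 2
    ext a
    simp only [Finset.mem_filter, Prod.mk.injEq]
    constructor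
    · rintro ⟨⟨h1, _⟩, h3⟩
      exact ⟨h1, h3⟩
    · rintro ⟨h1, h3, h4⟩
      refine ⟨⟨h1, (hkey a).mpr ?_⟩, h3, h4⟩
      rw [h3, h4]
      rcases hj.2 with h | h
      · exact ⟨h.1, h.2.2.1⟩
      · rw [Prod.mk.injEq] at h
        rw [h.1, h.2]
        exact ⟨dvd_rfl, subset_rfl⟩

/-- `tau` through the pattern -/
noncomputable def tauD (q n : ℕ) (D : Finset ℕ) : ℚ :=
  (∑ c ∈ n.divisors, (ArithmeticFunction.moebius (n / c) : ℚ) * ((q : ℚ) ^ c - 1) *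
    (if c ∈ D then 1 else 0)) / ((q : ℚ) ^ n - 1)

theorem tau_eq (q n a : ℕ) : tau q n a = tauD q n (Dset q n a) := by
  unfold tau tauD
  congr 1
  apply Finset.sum_congr rfl
  intro c hc
  congr 1
  have : (c ∈ Dset q n a) ↔ (q ^ c - 1) ∣ a := by
    unfold Dset
    rw [Finset.mem_filter]
    exact ⟨fun h => h.2, fun h => ⟨hc, h⟩⟩
  simp only [this]

theorem ratOn_tauD {S : Set ℕ} (hS : ∀ q ∈ S, 2 ≤ q) {n : ℕ} (hn : 1 ≤ n) (D : Finset ℕ) :
    RatOn S (fun q => tauD q n D) := by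
  unfold tauD
  refine (RatOn.sum _ (fun c _ => ((RatOn.const _).mul ((RatOn.qpow c).sub (RatOn.const 1))).mul
    (RatOn.const _))).div ((RatOn.qpow n).sub (RatOn.const 1)) (fun q hq => ?_)
  exact qpow_sub_one_ne (hS q hq) hn

/-- the summand through the pattern -/
noncomputable def Fval (q n k : ℕ) (i : ℕ × Finset ℕ) : ℚ :=
  (1 / (i.1 : ℚ)) * ∑ t ∈ Finset.range (n / i.1),
    ((-1) ^ t * (i.1 : ℚ) * tauD q n i.2 / n) ^ (k + 1) / Dg q n i.1 t ^ (k - 1)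

theorem Gval_eq (q n k : ℕ) (hn : 1 ≤ n) : Gval q n k =
    (∏ i ∈ Finset.range n, ((q : ℚ) ^ n - (q : ℚ) ^ i)) ^ k *
      ∑ i ∈ n.divisors ×ˢ n.divisors.powerset,
        (((Finset.range (q ^ n - 1)).filter (fun a => (sa q n a, Dset q n a) = i)).card : ℚ) *
          Fval q n k i := by
  classical
  unfold Gval
  congr 1
  have hmaps : ∀ a ∈ Finset.range (q ^ n - 1), (sa q n a, Dset q n a) ∈
      n.divisors ×ˢ n.divisors.powerset := by
    intro a _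
    simp only [Finset.mem_product, Nat.mem_divisors, Finset.mem_powerset]
    exact ⟨⟨sa_dvd hn a, by omega⟩, Finset.filter_subset _ _⟩
  rw [← Finset.sum_fiberwise_of_maps_to hmaps]
  apply Finset.sum_congr rfl
  intro i _
  rw [← nsmul_eq_mul, ← Finset.sum_const]
  apply Finset.sum_congr rfl
  intro a ha
  rw [Finset.mem_filter] at ha
  rw [← ha.2, Fval, tau_eq]

/-- NUM: polynomiality on `q ≡ 1 mod n`. -/
theorem gval_polynomial (n k : ℕ) (hn : 1 ≤ n) (hk : 1 ≤ k) (S : Set ℕ) (hS : S.Infinite)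
    (hS1 : ∀ q ∈ S, 2 ≤ q ∧ q ≡ 1 [MOD n])
    (hD : ∀ q ∈ S, ∀ s ∈ n.divisors, ∀ t < n / s, Dg q n s t ≠ 0)
    (hint : ∀ q ∈ S, ∃ z : ℤ, Gval q n k = z) :
    ∃ f : ℚ[X], ∀ q ∈ S, Gval q n k = f.eval (q : ℚ) := by
  have hS2 : ∀ q ∈ S, 2 ≤ q := fun q hq => (hS1 q hq).1
  apply RatOn.exists_poly _ hS hint
  have h1 : RatOn S (fun q => (∏ i ∈ Finset.range n, ((q : ℚ) ^ n - (q : ℚ) ^ i)) ^ k *
      ∑ i ∈ n.divisors ×ˢ n.divisors.powerset,
        (((Finset.range (q ^ n - 1)).filter (fun a => (sa q n a, Dset q n a) = i)).card : ℚ) *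
          Fval q n k i) := by
    refine ((RatOn.prod _ (fun i _ => (RatOn.qpow n).sub (RatOn.qpow i))).pow k).mul
      (RatOn.sum _ (fun i hi => (ratOn_pattern hn hS1 i hi).mul ?_))
    unfold Fval
    rw [Finset.mem_product] at hi
    have hs1 : 1 ≤ i.1 := Nat.pos_of_mem_divisors hi.1
    refine (RatOn.const _).mul (RatOn.sum _ (fun t ht => ?_))
    refine (((RatOn.const _).mul (ratOn_tauD hS2 hn i.2)).div (RatOn.const _) (fun q hq => ?_)
      |>.pow (k + 1)).div ((ratOn_Dg hS2 n i.1 t hs1).pow (k - 1)) (fun q hq => ?_)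
    · have : (0 : ℚ) < n := by exact_mod_cast hn
      exact this.ne'
    · exact pow_ne_zero _ (hD q hq i.1 hi.1 t (Finset.mem_range.mp ht))
  exact h1.congr (fun q _ => Gval_eq q n k hn)
end Pool.Agent.REll
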